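import Pool.Agent.X261.MF.Main
import Pool.Agent.X261.RO.Cert

/-!
Kummer towers: the branch curves `h(x) = t ^ N + a`.
-/

set_option autoImplicit false
set_option linter.all false

open Polynomial IsDedekindDomain WithZero
open scoped nonZeroDivisors Classical

namespace Pool.Agent.X261.MF

open Pool.Agent.TH115.GD (IsTower)
open Pool.Agent.Y160
open Pool.Agent.Y160.SE (SmoothC)
open Pool.Agent.Y160.SL (Concl)
open Pool.Agent.Y160.FT (Pres)
open Pool.Agent.Y160.T7
open Pool.Agent.Y228.FT
open Pool.Agent.X261.TS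

section irr

theorem irr_two (b : ℕ) : ∀ (K : Type) [Field K], IsSquare (-1 : K) → ∀ c : K,
    (∀ v : K, c ≠ v ^ 2) → Irreducible (X ^ (2 ^ b) - C c : K[X]) := by
  induction b with
  | zero =>
    intro K _ _ c _
    rw [pow_zero, pow_one]
    exact irreducible_X_sub_C c
  | succ b ih =>
    intro K _ h4 c hc
    obtain ⟨i, hi⟩ := h4
    have h2 : Irreducible (X ^ 2 - C c : K[X]) :=
      X_pow_sub_C_irreducible_of_prime Nat.prime_two fun v hv => hc v hv.symm
    rw [pow_succ]
    refine X_pow_mul_sub_C_irreducible h2 fun E _ _ x hx => ?_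
    refine ih _ ⟨algebraMap K _ i, by rw [← map_mul, ← hi, map_neg, map_one]⟩ _ fun w hw => ?_
    have hint : IsIntegral K x := by
      by_contra h
      rw [minpoly.eq_zero h] at hx
      exact (monic_X_pow_sub_C c two_ne_zero).ne_zero hx.symm
    have h5 := Algebra.PowerBasis.norm_gen_eq_coeff_zero_minpoly
      (IntermediateField.adjoin.powerBasis hint)
    have h6 : (IntermediateField.adjoin.powerBasis hint).gen =
        IntermediateField.AdjoinSimple.gen K x := IntermediateField.adjoin.powerBasis_gen hint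
    have h7 : (IntermediateField.adjoin.powerBasis hint).dim = 2 := by
      rw [IntermediateField.adjoin.powerBasis_dim, hx, natDegree_X_pow_sub_C]
    rw [h6, h7, IntermediateField.minpoly_gen, hx, hw, map_pow] at h5
    simp only [coeff_sub, coeff_X_pow, coeff_C_zero] at h5
    refine hc (i * Algebra.norm K w) ?_
    rw [mul_pow, h5]
    simp only [OfNat.zero_ne_ofNat, if_false]
    linear_combination (-c) * hi

theorem irr_pp {K : Type} [Field K] {p : ℕ} (hp : p.Prime) (h4 : p = 2 → IsSquare (-1 : K)) {c : K}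
    (hc : ∀ v : K, c ≠ v ^ p) (b : ℕ) : Irreducible (X ^ (p ^ b) - C c : K[X]) := by
  by_cases h2 : p = 2
  · subst h2
    exact irr_two b K (h4 rfl) c hc
  · exact X_pow_sub_C_irreducible_of_prime_pow hp h2 b fun v hv => hc v hv.symm

end irr

section kum

variable {k : Type} [Field k] {a : k} {m : ℕ} {h : Fin (m + 1) → k[X]}

/-- The prime `-(t ^ N + a)`. -/
noncomputable def PK (a : k) (N : ℕ) : k[X] := -(X ^ N + C a)

theorem PK_irr {p : ℕ} (hp : p.Prime) (h4 : p = 2 → IsSquare (-1 : k)) (ha : ∀ v : k, -a ≠ v ^ p)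
    (b : ℕ) : Irreducible (PK a (p ^ b)) := by
  have h1 := irr_pp hp h4 ha b
  have h2 : PK a (p ^ b) = C (-1) * (X ^ (p ^ b) - C (-a)) := by
    unfold PK
    simp only [C_neg, C_1]
    ring
  rw [h2]
  exact (irreducible_isUnit_mul (isUnit_C.2 (IsUnit.mk0 _ (neg_ne_zero.2 one_ne_zero)))).2 h1

theorem PK_deg (a : k) {N : ℕ} (hN : 0 < N) : (PK a N).natDegree = N := by
  unfold PK
  rw [natDegree_neg, natDegree_X_pow_add_C]

theorem kg_eq (h : Fin (m + 1) → k[X]) (a : k) (N : ℕ) : kgraph (∏ i, h i - C a) N =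
    C (PK a N) + ∏ i, (h i).map C := by
  unfold kgraph PK
  rw [Polynomial.map_sub, map_C, Polynomial.map_prod, C_neg, C_add]
  ring

variable {k' K F : Type} [Field k'] [Algebra k k'] [Field K] [Algebra k[X] K]
  [Field F] [Algebra k'[X] F] [IsFractionRing k'[X] F] [Algebra K F] [IsFractionRing k[X] K]

theorem kumG (hT : IsTower k k' K F) {p s : ℕ} (hp : p.Prime) {ζ : k}
    (hζ : IsPrimitiveRoot ζ (p ^ (s + 1))) (h4 : p = 2 → IsSquare (-1 : k))
    (hm : ∀ i, (h i).Monic) (hi : ∀ i, Irreducible (h i)) (hcop : ∀ i, p.Coprime (h i).natDegree)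
    (hinj : Function.Injective h) (hn : p.Coprime (∏ i, h i).natDegree)
    (ha : ∀ v : k, -a ≠ v ^ p) (hirr : Irreducible (∏ i, h i - C a))
    (hsep : (∏ i, h i - C a).Separable) {j : ℕ}
    (hj : p ^ (s + 1) ∣ (∏ i, h i).natDegree * j + 1) (b : ℕ) :
    Concl p (p ^ (s + 1)) m k k' F (((C (PK a (p ^ b)) + ∏ i, (h i).map C : k[X][X]).scaleRoots
      ((PK a (p ^ b)) ^ j)).map (algebraMap k[X] K)) := by
  have hζ' : IsPrimitiveRoot (ζ ^ (p ^ s)) p :=
    hζ.pow (pow_pos hp.pos _) (by rw [pow_succ])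
  have hdeg : (∏ i, h i - C a).natDegree = (∏ i, h i).natDegree := natDegree_sub_C
  have hn0 : 0 < (∏ i, h i - C a).natDegree := hirr.natDegree_pos
  have hmon : (∏ i, h i - C a).Monic := by
    apply (monic_prod_of_monic _ _ fun i _ => hm i).sub_of_left
    refine lt_of_le_of_lt degree_C_le ?_
    rw [hdeg] at hn0
    exact natDegree_pos_iff_degree_pos.1 hn0
  have ht := tower_kgraph hp hirr hsep (by rwa [hdeg]) b
  have hmK := monic_kgraph hmon hn0 (p ^ b)
  have hirrF := irrF hT hp ht hmK
  have hirrK : Irreducible ((kgraph (∏ i, h i - C a) (p ^ b)).map (algebraMap k[X] K)) :=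
    Polynomial.Monic.irreducible_of_irreducible_map (algebraMap K F) _ (hmK.map _) hirrF
  have hsepK : ((kgraph (∏ i, h i - C a) (p ^ b)).map (algebraMap k[X] K)).Separable := by
    rw [separable_iff_derivative_ne_zero hirrK, derivative_map]
    unfold kgraph
    rw [derivative_sub, derivative_C, sub_zero, derivative_map, Polynomial.map_map]
    rw [Polynomial.map_ne_zero_iff]
    · intro h0
      rw [Polynomial.separable_def, h0, isCoprime_zero_right] at hsep
      exact hirr.not_isUnit hsep
    · exact (IsFractionRing.injective k[X] K).comp C_injective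
  have hPi := PK_irr hp h4 ha b
  haveI : Fact (Irreducible (PK a (p ^ b))) := ⟨hPi⟩
  haveI : Module.Finite k (AdjoinRoot (PK a (p ^ b))) :=
    (AdjoinRoot.powerBasis hPi.ne_zero).finite
  have hfin : Module.finrank k (AdjoinRoot (PK a (p ^ b))) = p ^ b := by
    rw [(AdjoinRoot.powerBasis hPi.ne_zero).finrank, AdjoinRoot.powerBasis_dim,
      PK_deg a (pow_pos hp.pos b)]
  have hmap : ∀ i, ((h i).map C : k[X][X]).map (AdjoinRoot.mk (PK a (p ^ b))) =
      (h i).map (algebraMap k (AdjoinRoot (PK a (p ^ b)))) := by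
    intro i
    rw [Polynomial.map_map]
    rfl
  have hfin2 := conclG (m := m) (g := fun i => (h i).map C) hT hp rfl hζ hmK
    (by rwa [natDegree_kgraph, hdeg]) hPi
    (fun i => (hm i).map C) (kg_eq h a (p ^ b))
    (fun i => by
      rw [hmap]
      refine Pool.Agent.X261.AA.irr_of_coprime (hi i) ?_
      rw [hfin]
      exact (hcop i).pow_left b)
    (fun i i' hne => by
      rw [hmap, hmap]
      intro e
      exact hne (hinj (Polynomial.map_injective _ (algebraMap k _).injective e)))
    (j := j) (by rwa [natDegree_kgraph, hdeg])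
    (by
      obtain ⟨R, i1, i2, i3, t, x, h1, h2⟩ := tower_prop hp hζ' ht
      exact ⟨R, i1, i2, i3, t, x, h1, h2⟩)
    hsepK (Pool.Agent.Y179.T7.st_smooth p k _ hp (Pool.Agent.Y160.FT.p_ne hp rfl hζ) ht) hirrF
  rwa [kg_eq] at hfin2

end kum

section five

open Pool.Agent.X261.TW.Ex (evL addL smulL mulL ev_addL ev_smulL ev_mulL)
open Pool.Agent.X261.RO.Ce

/-- the coefficients -/
def cf5 : List ℤ := [2, 2, 2, 1]

/-- the reductions of the iterated powers -/
def HH5 : List (List ℤ) := [[0, 1], [1, 0, 3], [2, 4, 2], [0, 1]]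

/-- the quotients -/
def QQ5 : List (List ℤ) := [[2, 3, 1], [2, 1, 1, 2, 4, 1, 4, 3], [1, 1, 3, 3, 1, 4, 1, 2]]

theorem all5 : chkAll 5 cf5 HH5 QQ5 3 = true := by decide +kernel

theorem one5 : chkOne 5 cf5 (HH5.getD 1 []) [1, 3, 2] [0, 4] = true := by decide +kernel

instance : Fact (Nat.Prime 5) := ⟨by norm_num⟩

theorem charP_of {l : ℕ} (hl : l.Prime) {k : Type} [Field k] [Finite k] {r : ℕ}
    (h : Nat.card k = l ^ r) : CharP k l := by
  haveI := Fintype.ofFinite k
  obtain ⟨n, hp, hc⟩ := FiniteField.card k (ringChar k)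
  rw [← Nat.card_eq_fintype_card, h] at hc
  have h1 : ringChar k ∣ l ^ r := by
    rw [hc]
    exact dvd_pow_self _ n.ne_zero
  have h2 := (Nat.prime_dvd_prime_iff_eq hp hl).1 (hp.dvd_of_dvd_pow h1)
  rw [← h2]
  exact ringChar.charP k

/-- `x (x - 1) (x - 2) - 3` -/
theorem irr5 {k : Type} [Field k] [Finite k] {r : ℕ} (h : Nat.card k = 5 ^ r) (hr : r.Coprime 6) :
    Irreducible (X * (X - C 1) * (X - C 2) - C 3 : k[X]) := by
  haveI := charP_of (by norm_num : Nat.Prime 5) h
  have hd : (X * (X - C 1) * (X - C 2) - C 3 : k[X]).natDegree = 3 := by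
    rw [natDegree_sub_C, natDegree_mul (mul_ne_zero X_ne_zero (X_sub_C_ne_zero _))
      (X_sub_C_ne_zero _), natDegree_mul X_ne_zero (X_sub_C_ne_zero _), natDegree_X,
      natDegree_X_sub_C, natDegree_X_sub_C]
  have h3 : r.Coprime 3 := Nat.Coprime.coprime_dvd_right (by norm_num) hr
  refine irr_of (r := 5) h (n := 3) h3 hd (by norm_num) fun F _ _ _ a ha d hd' => ?_
  have hev : evL cf5 a = 0 := by
    have h5 : (5 : F) = 0 := by
      have := CharP.cast_eq_zero F 5
      exact_mod_cast this
    have h2 : aeval a (C 2 : k[X]) = (2 : F) := by rw [aeval_C, map_ofNat]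
    have h3 : aeval a (C 3 : k[X]) = (3 : F) := by rw [aeval_C, map_ofNat]
    simp only [map_sub, map_mul, aeval_X, h2, h3, C_1, map_one] at ha
    simp only [cf5, evL]
    push_cast
    linear_combination ha + (1 + a ^ 2) * h5
  refine dvd_of_pow (r := 5) (by norm_num) (pow_n all5 hev) (fun l hl hl3 => ?_) hd'
  have hl' : l = 3 := (Nat.prime_dvd_prime_iff_eq hl Nat.prime_three).1 hl3
  subst hl'
  exact pow_ne all5 hev (by norm_num) one5

theorem not_sq5 {k : Type} [Field k] [Finite k] {r : ℕ} (h : Nat.card k = 5 ^ r)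
    (hr : r.Coprime 6) (v : k) : -(3 : k) ≠ v ^ 2 := by
  haveI := charP_of (by norm_num : Nat.Prime 5) h
  intro hv
  have h5 : (5 : k) = 0 := by
    have := CharP.cast_eq_zero k 5
    exact_mod_cast this
  have h2 : r.Coprime 2 := Nat.Coprime.coprime_dvd_right (by norm_num) hr
  have hirr : Irreducible (X ^ 2 + 3 : k[X]) := by
    refine irr_of (r := 5) h (n := 2) h2 ?_ (by norm_num) fun F _ _ _ a ha d hd => ?_
    · compute_degree!
    · have h5F : (5 : F) = 0 := by
        have := CharP.cast_eq_zero F 5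
        exact_mod_cast this
      have ha2 : a ^ 2 = -3 := by
        simp only [map_add, map_pow, aeval_X, map_ofNat] at ha
        linear_combination ha
      refine dvd_of_pow (r := 5) (by norm_num) ?_ (fun l hl hl2 => ?_) hd
      · have : a ^ 5 ^ 2 = (a ^ 2) ^ 12 * a := by ring
        rw [this, ha2]
        linear_combination (106288 * a) * h5F
      · have hl' : l = 2 := (Nat.prime_dvd_prime_iff_eq hl Nat.prime_two).1 hl2
        subst hl'
        intro h8
        have h9 : a ^ 5 = (a ^ 2) ^ 2 * a := by ring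
        rw [show 2 / 2 = 1 from rfl, pow_one, h9, ha2] at h8
        have h10 : a * (3 : F) = 0 := by linear_combination h8 - a * h5F
        rcases mul_eq_zero.1 h10 with h11 | h11
        · rw [h11] at ha2
          have h12 : (3 : F) = 0 := by linear_combination ha2
          have h13 : (1 : F) = 0 := by linear_combination 2 * h12 - h5F
          exact one_ne_zero h13
        · have h13 : (1 : F) = 0 := by linear_combination 2 * h11 - h5F
          exact one_ne_zero h13
  have hroot : IsRoot (X ^ 2 + 3 : k[X]) v := by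
    rw [IsRoot.def, eval_add, eval_pow, eval_X, eval_ofNat]
    linear_combination (-1) * hv
  have := degree_eq_one_of_irreducible_of_root hirr hroot
  rw [show (X ^ 2 + 3 : k[X]).degree = 2 by compute_degree!] at this
  exact absurd this (by decide)

end five

end Pool.Agent.X261.MF
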