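import Pool.Agent.X261.MF.Slv

/-!
Twists with several multisections: all the conclusions.
-/

set_option autoImplicit false
set_option linter.all false

open Polynomial IsDedekindDomain WithZero
open scoped nonZeroDivisors Classical

namespace Pool.Agent.X261.MF

open Pool.Agent.TH115.GD (IsTower Sep)
open Pool.Agent.Y160
open Pool.Agent.Y160.SE (IsPw SmoothC)
open Pool.Agent.Y160.SL (Concl)
open Pool.Agent.Y160.FT (Pres)
open Pool.Agent.Y160.T7
open Pool.Agent.Y228.FT
open Pool.Agent.X261.TS
open Pool.Agent.X261.RO (ev)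
open Pool.Agent.Y160.SQ (Rt)
open Pool.Agent.Y160.RK (ptCl spanD gen_iter mem_spanD rank_lin)

section cont

variable {k K : Type} [Field k] [Field K] [Algebra k[X] K] [IsFractionRing k[X] K]

/-- The equation of the divisor. -/
noncomputable def vv (K : Type) [Field K] [Algebra k[X] K] (P : k[X]) (g : k[X][X]) (j : ℕ) : K[X] :=
  (g.scaleRoots (P ^ j)).map (algebraMap k[X] K)

theorem contG {Goal : Prop} {p q s : ℕ} (hp : p.Prime) (hq : q = p ^ (s + 1)) {f : k[X][X]}
    (hmon : f.Monic) (hcop : p.Coprime f.natDegree)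
    (hirrK : Irreducible (f.map (algebraMap k[X] K))) {m : ℕ} {P : k[X]} {g : Fin (m + 1) → k[X][X]}
    (hPi : Irreducible P) (hg : ∀ i, (g i).Monic) (hf : f = C P + ∏ i, g i)
    (hi : ∀ i, Irreducible ((g i).map (AdjoinRoot.mk P)))
    (hne : ∀ i i', i ≠ i' → (g i).map (AdjoinRoot.mk P) ≠ (g i').map (AdjoinRoot.mk P))
    {j : ℕ} (hj : q ∣ f.natDegree * j + 1)
    (hR : ∃ (R : Type) (_ : CommRing R) (_ : IsDedekindDomain R) (_ : Algebra k R) (t x : R),
      Pres t x f ∧ PropT p k R)
    (cont : ∀ (R N : Type) [CommRing R] [IsDedekindDomain R] [Field N] [Algebra K N]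
      [Algebra k[X] N] [IsScalarTower k[X] K N] [Algebra R N] [IsFractionRing R N]
      [Algebra k[X] R] [IsScalarTower k[X] R N] [Algebra.IsIntegral k[X] R] (θ : N),
      aeval θ ((f.scaleRoots (P ^ j)).map (algebraMap k[X] K)) = 0 →
      IntermediateField.adjoin K {θ} = ⊤ →
      (∀ z : N, z ≠ 0 → (∀ v : HeightOneSpectrum R, algebraMap k[X] R (P ^ j) ∉ v.asIdeal →
        IsPw q (v.valuation N z)) → (∃ y : K, Algebra.norm K z = y ^ q) →
        ∃ (u : k) (w : N) (e : Fin m → ℕ), u ≠ 0 ∧ w ≠ 0 ∧
          z = algebraMap k[X] N (C u) * w ^ q *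
            ∏ i, (aeval θ (vv K P (g i.castSucc) j)) ^ e i) →
      (∀ (e : Fin m → ℕ) (w : N), w ≠ 0 →
        ((∏ i, aeval θ (vv K P (g i.castSucc) j) ^ e i) ^ f.natDegree = w ^ q ∨
        (∏ i, aeval θ (vv K P (g i.castSucc) j) ^ e i) ^ f.natDegree = -w ^ q) →
          ∀ i, q ∣ e i) → Goal) :
    Goal := by
  have hg1 : ∀ i, 0 < (g i).natDegree := by
    intro i
    haveI : Fact (Irreducible P) := ⟨hPi⟩
    have := (hi i).natDegree_pos
    rwa [(hg i).natDegree_map] at this
  have hdeg : (∑ i : Fin m, (g i.castSucc).natDegree) + (g (Fin.last m)).natDegree =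
      f.natDegree := by
    rw [hf, natDegree_C_add, natDegree_prod_of_monic _ _ fun i _ => hg i, Fin.sum_univ_castSucc]
  have hn0 : 0 < f.natDegree := by
    have := hg1 (Fin.last m)
    omega
  obtain ⟨R, _, _, _, u, x, hP, hsel⟩ := hR
  have hsurj := hP.surj
  have hker := hP.ker
  have hn : f.natDegree ≠ 0 := hn0.ne'
  -- the algebra structures
  let φ : k[X] →+* R := ((aeval u : k[X] →ₐ[k] R) : k[X] →+* R)
  letI : Algebra k[X] R := φ.toAlgebra
  haveI : IsDomain R := inferInstance
  have hinjR : Function.Injective (algebraMap k[X] R) := by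
    rw [injective_iff_map_eq_zero]
    intro y hy
    have h1 : eval₂ φ x (C y) = 0 := by rw [eval₂_C]; exact hy
    have h2 := (hker _).1 h1
    by_contra hy0
    have h3 := natDegree_le_of_dvd h2 (C_ne_zero.2 hy0)
    rw [natDegree_C] at h3
    omega
  have hkX : ∀ y : k[X], algebraMap k[X] (FractionRing R) y = algebraMap R (FractionRing R) (φ y) :=
    fun y => IsScalarTower.algebraMap_apply k[X] R (FractionRing R) y
  have hinjN : Function.Injective (algebraMap k[X] (FractionRing R)) := by
    intro y y' h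
    rw [hkX, hkX] at h
    exact hinjR (IsFractionRing.injective R (FractionRing R) h)
  letI : Algebra K (FractionRing R) := (IsFractionRing.lift hinjN : K →+* FractionRing R).toAlgebra
  haveI : IsScalarTower k[X] K (FractionRing R) := IsScalarTower.of_algebraMap_eq fun y =>
    (IsFractionRing.lift_algebraMap hinjN y).symm
  have hroot : eval₂ φ x f = 0 := (hker _).2 dvd_rfl
  haveI : Algebra.IsIntegral k[X] R := by
    refine ⟨fun z => ?_⟩
    obtain ⟨P, rfl⟩ := hsurj z
    have hx : IsIntegral k[X] x := ⟨f, hmon, hroot⟩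
    have : eval₂ φ x P = aeval x P := rfl
    rw [this]
    exact adjoin_le_integralClosure hx (aeval_mem_adjoin_singleton k[X] x)
  let θ : FractionRing R := algebraMap R (FractionRing R) x
  have hθev : ∀ P : k[X][X], aeval θ (P.map (algebraMap k[X] K)) =
      algebraMap R (FractionRing R) (eval₂ φ x P) := by
    intro P
    rw [aeval_map_algebraMap]
    have h1 : algebraMap k[X] (FractionRing R) = (algebraMap R (FractionRing R)).comp φ :=
      RingHom.ext hkX
    rw [aeval_def, h1]
    exact (hom_eval₂ P φ (algebraMap R (FractionRing R)) x).symm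
  have hθ : aeval θ (f.map (algebraMap k[X] K)) = 0 := by
    rw [hθev, hroot, map_zero]
  have htop : IntermediateField.adjoin K {θ} = ⊤ := by
    rw [eq_top_iff]
    rintro z -
    have hR : ∀ r : R, algebraMap R (FractionRing R) r ∈ IntermediateField.adjoin K {θ} := by
      intro r
      obtain ⟨P, rfl⟩ := hsurj r
      rw [← hθev]
      exact IntermediateField.algebra_adjoin_le_adjoin K {θ}
        (aeval_mem_adjoin_singleton K θ)
    obtain ⟨a, b, hb, rfl⟩ := IsFractionRing.div_surjective (A := R) z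
    exact div_mem (hR a) (hR b)
  -- the degree
  have hθint : IsIntegral K θ := ⟨f.map (algebraMap k[X] K), hmon.map _, hθ⟩
  haveI : FiniteDimensional K (FractionRing R) := by
    have h1 : FiniteDimensional K (IntermediateField.adjoin K {θ}) :=
      IntermediateField.adjoin.finiteDimensional hθint
    rw [htop] at h1
    exact LinearEquiv.finiteDimensional
      (IntermediateField.topEquiv (F := K) (E := FractionRing R)).toLinearEquiv
  have hrank : Module.finrank K (FractionRing R) = f.natDegree := by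
    have h1 := IntermediateField.adjoin.finrank hθint
    rw [htop, IntermediateField.finrank_top'] at h1
    rw [h1, ← minpoly.eq_of_irreducible_of_monic hirrK hθ (hmon.map _), hmon.natDegree_map]
  have hq1 : 1 < q := by
    rw [hq]
    exact Nat.one_lt_pow (Nat.succ_ne_zero s) hp.one_lt
  -- the root of the twisted polynomial
  set D : k[X] := P ^ j with hDdef
  have hD : D ≠ 0 := pow_ne_zero j hPi.ne_zero
  have hDK : algebraMap k[X] K D ≠ 0 := fun h0 => hD (IsFractionRing.injective k[X] K
    (by rw [h0, map_zero]))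
  have hscale : (f.scaleRoots D).map (algebraMap k[X] K) =
      (f.map (algebraMap k[X] K)).scaleRoots (algebraMap k[X] K D) :=
    map_scaleRoots f D (algebraMap k[X] K) (by
      rw [hmon.leadingCoeff, map_one]
      exact one_ne_zero)
  have hDN : algebraMap K (FractionRing R) (algebraMap k[X] K D) ≠ 0 :=
    (_root_.map_ne_zero _).2 hDK
  have hval : ∀ i, aeval (algebraMap K (FractionRing R) (algebraMap k[X] K D) * θ)
      (vv K P (g i) j) = algebraMap k[X] (FractionRing R) (P ^ j) ^ (g i).natDegree *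
        algebraMap R (FractionRing R) (ev u x (g i)) := by
    intro i
    unfold vv
    rw [← hDdef, aeval_map_algebraMap, aeval_def, ← IsScalarTower.algebraMap_apply,
      scaleRoots_eval₂_mul]
    congr 1
    rw [← aeval_def, ← aeval_map_algebraMap K, hθev]
  have hA : ∀ i, Prime (ev u x (g i)) := fun i => prime_G hP hf hn0 hPi i (hi i)
  have hAA : ∀ i i', i ≠ i' → ¬ ev u x (g i) ∣ ev u x (g i') := fun i i' h =>
    ndvd_G hP hf hPi hg hi (hne i i' h)
  have hPR : algebraMap k[X] R P =
      -((∏ i : Fin m, ev u x (g i.castSucc)) * ev u x (g (Fin.last m))) := by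
    rw [← Fin.prod_univ_castSucc (fun i => ev u x (g i))]
    exact ev_P hP hf
  have hNA : ∀ i, Algebra.norm K (algebraMap R (FractionRing R) (ev u x (g i))) =
      ((-1) ^ f.natDegree * algebraMap k[X] K P) ^ (g i).natDegree := by
    intro i
    have h1 := norm_aeval (hmon.map (algebraMap k[X] K)) hirrK hθ htop
      ((hg i).map (algebraMap k[X] K)) (c := algebraMap k[X] K P) (by
        rw [hf, Polynomial.map_add, map_C, add_sub_cancel_left, Polynomial.map_prod]
        exact Finset.dvd_prod_of_mem _ (Finset.mem_univ i))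
    rw [hθev, hmon.natDegree_map, (hg i).natDegree_map] at h1
    exact h1
  refine cont R (FractionRing R) (algebraMap K (FractionRing R) (algebraMap k[X] K D) * θ) ?_ ?_ ?_
    ?_
  · rw [hscale]
    exact scaleRoots_aeval_eq_zero hθ
  · rw [eq_top_iff, ← htop, IntermediateField.adjoin_simple_le_iff]
    have h1 := IntermediateField.mem_adjoin_simple_self K
      (algebraMap K (FractionRing R) (algebraMap k[X] K D) * θ)
    have h2 := mul_mem (inv_mem (IntermediateField.algebraMap_mem
      (IntermediateField.adjoin K {algebraMap K (FractionRing R) (algebraMap k[X] K D) * θ})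
      (algebraMap k[X] K D))) h1
    rwa [inv_mul_cancel_left₀ hDN] at h2
  · intro z hz hv hnm
    simp only [hval]
    refine solveG (R := R) (K := K) hq1 hrank hPi (fun i => hA _) (hA _)
      (fun i => hAA _ _ (Fin.castSucc_ne_last i).symm)
      (fun i i' h => hAA _ _ (fun e => h (Fin.castSucc_injective m e))) hPR hdeg
      (fun i => hNA _) (hNA _) hj ?_ hz hv hnm
    intro z hz hv
    obtain ⟨c, w, hc, hw, e⟩ := propT_pow hp.ne_zero hsel (FractionRing R) (s + 1) z hz
      (by rw [← hq]; exact hv)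
    refine ⟨c, w, hc, hw, ?_⟩
    rw [e, hkX, hq]
    congr 2
    show _ = aeval u (C c)
    rw [aeval_C]
  · intro e w hw h
    simp only [hval] at h
    refine orderG (R := R) (n := f.natDegree) ?_ (fun i => hA _) (hA _)
      (fun i => hAA _ _ (Fin.castSucc_ne_last i).symm)
      (fun i i' h => hAA _ _ (fun e => h (Fin.castSucc_injective m e))) hPR hw h
    rw [hq]
    exact (Nat.Coprime.pow_left (s + 1) hcop).symm

end cont

section concl

variable {k k' K F : Type} [Field k] [Field k'] [Algebra k k'] [Field K] [Algebra k[X] K]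
  [Field F] [Algebra k'[X] F] [IsFractionRing k'[X] F] [Algebra K F] [IsFractionRing k[X] K]

theorem scale_eq {f : k[X][X]} {ι : Type} [Fintype ι] {g : ι → k[X][X]} {P D : k[X]}
    (hf : f = C P + ∏ i, g i) : f.scaleRoots D = C (P * D ^ f.natDegree) +
      (∏ i, g i).scaleRoots D := by
  have hn : f.natDegree = (∏ i, g i).natDegree := by rw [hf, natDegree_C_add]
  ext1 n
  rw [coeff_add, coeff_scaleRoots, coeff_scaleRoots, coeff_C, ← hn]
  conv_lhs => rw [show f.coeff n = (C P + ∏ i, g i).coeff n by rw [← hf]]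
  rw [coeff_add, coeff_C]
  split_ifs with h
  · rw [h, Nat.sub_zero]
    ring
  · ring

/-- All the conclusions. -/
theorem conclG (hT : IsTower k k' K F) {p q s : ℕ} (hp : p.Prime) (hq : q = p ^ (s + 1)) {ζ : k}
    (hζ : IsPrimitiveRoot ζ q) {f : k[X][X]} (hmon : f.Monic) (hcop : p.Coprime f.natDegree)
    {m : ℕ} {P : k[X]} {g : Fin (m + 1) → k[X][X]}
    (hPi : Irreducible P) (hg : ∀ i, (g i).Monic) (hf : f = C P + ∏ i, g i)
    (hi : ∀ i, Irreducible ((g i).map (AdjoinRoot.mk P)))
    (hne : ∀ i i', i ≠ i' → (g i).map (AdjoinRoot.mk P) ≠ (g i').map (AdjoinRoot.mk P))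
    {j : ℕ} (hj : q ∣ f.natDegree * j + 1)
    (hR : ∃ (R : Type) (_ : CommRing R) (_ : IsDedekindDomain R) (_ : Algebra k R) (t x : R),
      Pres t x f ∧ PropT p k R)
    (hsep : (f.map (algebraMap k[X] K)).Separable) (hsm : SmoothC f)
    (hirr : Irreducible ((f.map (algebraMap k[X] K)).map (algebraMap K F))) :
    Concl p q m k k' F ((f.scaleRoots (P ^ j)).map (algebraMap k[X] K)) := by
  have hirrK : Irreducible (f.map (algebraMap k[X] K)) :=
    Polynomial.Monic.irreducible_of_irreducible_map (algebraMap K F) _ (hmon.map _) hirr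
  obtain ⟨D, hDdef⟩ : ∃ D : k[X], D = P ^ j := ⟨_, rfl⟩
  have hD : D ≠ 0 := by
    rw [hDdef]
    exact pow_ne_zero j hPi.ne_zero
  have hDK : algebraMap k[X] K D ≠ 0 := fun h0 => hD (IsFractionRing.injective k[X] K
    (by rw [h0, map_zero]))
  have hscale : (f.scaleRoots D).map (algebraMap k[X] K) =
      (f.map (algebraMap k[X] K)).scaleRoots (algebraMap k[X] K D) :=
    map_scaleRoots f D (algebraMap k[X] K) (by
      rw [hmon.leadingCoeff, map_one]
      exact one_ne_zero)
  have hscale2 : ((f.scaleRoots D).map (algebraMap k[X] K)).map (algebraMap K F) =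
      ((f.map (algebraMap k[X] K)).map (algebraMap K F)).scaleRoots
        (algebraMap K F (algebraMap k[X] K D)) := by
    rw [hscale]
    refine map_scaleRoots _ _ (algebraMap K F) ?_
    rw [(hmon.map _).leadingCoeff, map_one]
    exact one_ne_zero
  have hmonS : (f.scaleRoots D).Monic := (monic_scaleRoots_iff D).2 hmon
  have hcopS : p.Coprime (f.scaleRoots D).natDegree := by rwa [natDegree_scaleRoots]
  have hsepS : ((f.scaleRoots D).map (algebraMap k[X] K)).Separable := by
    rw [hscale]
    exact sep_scale hDK hsep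
  have hirrKS : Irreducible ((f.scaleRoots D).map (algebraMap k[X] K)) := by
    rw [hscale]
    exact irr_scale hDK hirrK
  have hirrS : Irreducible (((f.scaleRoots D).map (algebraMap k[X] K)).map (algebraMap K F)) := by
    rw [hscale2]
    exact irr_scale ((_root_.map_ne_zero _).2 hDK) hirr
  obtain ⟨md, hsmS⟩ := smooth_scale hsm hD
  have hgd := (SH.good_of hp (Nat.succ_pos s) hq hT hζ hmonS hcopS hsepS).1
  -- the divisors
  obtain ⟨m0, hm0⟩ := hj
  have hj' : q ∣ f.natDegree * j + 1 := ⟨m0, hm0⟩
  obtain ⟨V, hV⟩ : ∃ V : Fin m → K[X], V = fun i => vv K P (g i.castSucc) j := ⟨_, rfl⟩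
  obtain ⟨TK, hTK⟩ : ∃ TK : K[X], TK = C (algebraMap k[X] K (P ^ m0)) := ⟨_, rfl⟩
  have hTq : TK ^ q = C (algebraMap k[X] K (P * D ^ f.natDegree)) := by
    rw [hTK, ← C_pow, ← map_pow]
    congr 2
    rw [hDdef, ← pow_mul, ← pow_mul, ← pow_succ']
    congr 1
    rw [mul_comm m0 q, ← hm0, mul_comm j]
  have hFT : (f.scaleRoots D).map (algebraMap k[X] K) - TK ^ q =
      ((∏ i, g i).scaleRoots D).map (algebraMap k[X] K) := by
    rw [hTq, scale_eq hf, Polynomial.map_add, map_C, add_sub_cancel_left]
  have hVd : ∀ i, V i ∣ (f.scaleRoots D).map (algebraMap k[X] K) - TK ^ q := by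
    intro i
    rw [hFT, hV]
    show (((g i.castSucc).scaleRoots (P ^ j)).map (algebraMap k[X] K)) ∣ _
    rw [← hDdef]
    obtain ⟨r, hr⟩ := Finset.dvd_prod_of_mem g (Finset.mem_univ i.castSucc)
    rw [hr, mul_scaleRoots_of_noZeroDivisors, Polynomial.map_mul]
    exact dvd_mul_right _ _
  have hPp : ∀ i, Irreducible (V i) ∧ (V i).Monic ∧
      ¬ V i ∣ (f.scaleRoots D).map (algebraMap k[X] K) ∧
      V i ∣ (f.scaleRoots D).map (algebraMap k[X] K) - TK ^ q := by
    intro i
    have h1 : (V i).Monic := by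
      rw [hV]
      exact ((monic_scaleRoots_iff _).2 (hg _)).map _
    have h2 : Irreducible (V i) := by
      haveI : Fact (Irreducible P) := ⟨hPi⟩
      have h3 : Irreducible (g i.castSucc) :=
        Polynomial.Monic.irreducible_of_irreducible_map (AdjoinRoot.mk P) _ (hg _) (hi _)
      have h4 := ((hg i.castSucc).irreducible_iff_irreducible_map_fraction_map (K := K)).1 h3
      rw [hV]
      show Irreducible (((g i.castSucc).scaleRoots (P ^ j)).map (algebraMap k[X] K))
      rw [← hDdef, map_scaleRoots _ _ (algebraMap k[X] K) (by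
        rw [(hg _).leadingCoeff, map_one]
        exact one_ne_zero)]
      exact irr_scale hDK h4
    refine ⟨h2, h1, fun h5 => ?_, hVd i⟩
    have h6 : V i ∣ TK ^ q := by
      have := dvd_sub h5 (hVd i)
      rwa [sub_sub_cancel] at this
    rw [hTq] at h6
    refine h2.not_isUnit (isUnit_of_dvd_unit h6 (isUnit_C.2 (IsUnit.mk0 _ fun h0 => ?_)))
    exact mul_ne_zero hPi.ne_zero (pow_ne_zero _ hD)
      (IsFractionRing.injective k[X] K (by rw [h0, map_zero]))
  rw [← hDdef]
  refine ⟨SL.tateAt_of ?_, SL.shaTriv_of ?_, ?_⟩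
  · refine contG (K := K) hp hq hmon hcop hirrK hPi hg hf hi hne hj' hR ?_
    rw [← hDdef]
    intro R N _ _ _ _ _ _ _ _ _ _ _ θ hθ htop hpts hord
    refine mainCS (R := R) (N := N) hp (Nat.succ_pos s) hq SQ.hyps SQ.lhyps hT hζ hmonS hcopS
      hsepS hsmS hirrS hθ htop ?_
    intro z hz hv hn
    obtain ⟨u, w, e, hu, hw, he⟩ := hpts z hz hv hn
    refine ⟨u, w, ∑ i, Multiset.replicate (e i) (V i), hu, hw, fun b hb => ?_, ?_⟩
    · obtain ⟨i, -, hi⟩ := Multiset.mem_sum.1 hb
      rw [Multiset.eq_of_mem_replicate hi]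
      exact ⟨(hPp i).2.1, TK, (hPp i).2.2.2⟩
    · rw [he, Multiset.prod_sum]
      simp only [Multiset.prod_replicate, map_prod, map_pow, hV]
  · refine contG (K := K) hp hq hmon hcop hirrK hPi hg hf hi hne hj' hR ?_
    rw [← hDdef]
    intro R N _ _ _ _ _ _ _ _ _ _ _ θ hθ htop hpts hord
    refine mainShaS (R := R) (N := N) hp (Nat.succ_pos s) hq SQ.hyps SQ.lhyps
      Pool.Agent.Y141.SH.stShaLoc hT hζ hmonS hcopS hsepS hsmS hirrKS hθ htop ?_
    intro z hz hv hn
    obtain ⟨u, w, e, hu, hw, he⟩ := hpts z hz hv hn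
    refine ⟨u, w, ∑ i, Multiset.replicate (e i) (V i), hu, hw, fun b hb => ?_, ?_⟩
    · obtain ⟨i, -, hi⟩ := Multiset.mem_sum.1 hb
      rw [Multiset.eq_of_mem_replicate hi]
      exact ⟨(hPp i).2.1, TK, (hPp i).2.2.2⟩
    · rw [he, Multiset.prod_sum]
      simp only [Multiset.prod_replicate, map_prod, map_pow, hV]
  · obtain ⟨DD, hDD⟩ : ∃ DD : Fin m → SQ.Jac q ((f.scaleRoots D).map (algebraMap k[X] K)) K,
        DD = fun i => ptCl q ((f.scaleRoots D).map (algebraMap k[X] K)) (V i, TK) := ⟨_, rfl⟩
    have hgen : ∀ y : SQ.Jac q ((f.scaleRoots D).map (algebraMap k[X] K)) K,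
        ∃ y' : SQ.Jac q ((f.scaleRoots D).map (algebraMap k[X] K)) K,
          y - SQ.pe hgd K (1 - X) y' ∈ spanD hgd DD := by
      intro y
      refine contG (K := K) hp hq hmon hcop hirrK hPi hg hf hi hne hj' hR ?_
      rw [← hDdef]
      intro R N _ _ _ _ _ _ _ _ _ _ _ θ hθ htop hpts hord
      obtain ⟨S', y', hSP, hx⟩ := mainGenS (R := R) (N := N) hp (Nat.succ_pos s) hq SQ.hyps
        SQ.lhyps FT.inj_all Pool.Agent.Y141.SH.stShaLoc hT hζ hgd hmonS hcopS hsepS hsmS hirrKS hθ
        htop (Set.range fun i => (V i, TK)) (by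
          rintro _ ⟨i, rfl⟩
          exact hPp i) (by
          intro z hz hv hn
          obtain ⟨u, w, e, hu, hw, he⟩ := hpts z hz hv hn
          refine ⟨u, w, ∑ i, Multiset.replicate (e i) (V i, TK), hu, hw, fun b hb => ?_, ?_⟩
          · obtain ⟨i, -, hi⟩ := Multiset.mem_sum.1 hb
            rw [Multiset.eq_of_mem_replicate hi]
            exact ⟨i, rfl⟩
          · rw [he, SQ.dvP_eval]
            congr 1
            have h1 : Multiset.map (fun P : K[X] × K[X] => aeval θ P.1)
                (∑ i, Multiset.replicate (e i) (V i, TK)) =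
                ∑ i, Multiset.replicate (e i) (aeval θ (V i)) := by
              rw [← Multiset.coe_mapAddMonoidHom, map_sum]
              refine Finset.sum_congr rfl fun i _ => ?_
              rw [Multiset.coe_mapAddMonoidHom, Multiset.map_replicate]
            rw [h1, Multiset.prod_sum]
            simp only [Multiset.prod_replicate, hV]) y
      refine ⟨y', ?_⟩
      rw [hx, add_sub_cancel_right]
      refine AddSubgroup.multiset_sum_mem _ _ fun c' hc' => ?_
      obtain ⟨P', hP', rfl⟩ := Multiset.mem_map.1 hc'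
      obtain ⟨i, hi⟩ := hSP P' hP'
      rw [← hi]
      have h1 := mem_spanD hgd DD i
      rw [hDD] at h1 ⊢
      exact h1
    have hrank : LinearIndependent ℤ (fun i : Fin m × Fin (q - 1) => ((SQ.sg hgd K) ^ (i.2 : ℕ))
        (DD i.1)) := by
      refine contG (K := K) hp hq hmon hcop hirrK hPi hg hf hi hne hj' hR ?_
      rw [← hDdef]
      intro R N _ _ _ _ _ _ _ _ _ _ _ θ hθ htop hpts hord
      -- the embedding
      have hs : IsSeparable K θ := hsepS.of_dvd (minpoly.dvd K θ hθ)
      have f3 : Algebra.IsSeparable K (IntermediateField.adjoin K {θ}) :=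
        (IntermediateField.isSeparable_adjoin_simple_iff_isSeparable K N).2 hs
      rw [htop] at f3
      haveI : Algebra.IsSeparable K N :=
        Algebra.IsSeparable.of_algHom K (⊤ : IntermediateField K N)
          (IntermediateField.topEquiv (F := K) (E := N)).symm.toAlgHom
      let i : N →ₐ[K] Sep K := IsSepClosed.lift
      letI : Algebra N (Sep K) := i.toRingHom.toAlgebra
      haveI : IsScalarTower K N (Sep K) :=
        IsScalarTower.of_algebraMap_eq fun x => (i.commutes x).symm
      have ha : Rt ((f.scaleRoots D).map (algebraMap k[X] K)) (algebraMap N (Sep K) θ) := by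
        show aeval _ ((f.scaleRoots D).map (algebraMap k[X] K)) = 0
        rw [aeval_algebraMap_apply, hθ, map_zero]
      have hnat : ((f.scaleRoots D).map (algebraMap k[X] K)).natDegree = f.natDegree := by
        rw [hmonS.natDegree_map, natDegree_scaleRoots]
      have h1 := rank_lin (Ω := Sep K) (N := N) SQ.hyps hgd FT.inj_all Pool.Agent.Y627.FT.stLin hp hq
        hirrKS ha rfl (fun i : Fin m => (V i, TK)) (fun i => hPp i) (by
          intro e w hw0 hw
          rw [hnat, hV] at hw
          exact hord e w hw0 hw)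
      rw [hDD]
      exact h1
    exact ⟨_, hrank, fun n y => gen_iter SQ.hyps hgd hp hq _ hgen n y⟩

end concl

end Pool.Agent.X261.MF

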