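import Pool.Agent.X261.MF.Cont

/-!
The general theorem, and the cubic branch curves.
-/

set_option autoImplicit false
set_option linter.all false

open Polynomial IsDedekindDomain WithZero
open scoped nonZeroDivisors Classical

namespace Pool.Agent.X261.MF

open Pool.Agent.TH115.GD (IsTower)
open Pool.Agent.Y160
open Pool.Agent.Y160.SE (SmoothC)
open Pool.Agent.Y160.SL (Concl)
open Pool.Agent.Y160.FT (Pres)
open Pool.Agent.Y160.T7
open Pool.Agent.Y228.FT
open Pool.Agent.X261.TS
open Pool.Agent.X261.BC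

section main

variable {k k' K F : Type} [Field k] [Field k'] [Algebra k k'] [Field K] [Algebra k[X] K]
  [Field F] [Algebra k'[X] F] [IsFractionRing k'[X] F] [Algebra K F] [IsFractionRing k[X] K]

theorem mainG (hT : IsTower k k' K F) {p s : ℕ} (hp : p.Prime) {ζ : k}
    (hζ : IsPrimitiveRoot ζ (p ^ (s + 1))) {f : k[X][X]} (hmon : f.Monic)
    (hcop : p.Coprime f.natDegree) (hirr : Irreducible (f.map (mapRingHom (algebraMap k k'))))
    (hder : derivative f ≠ 0) (hsm : SmoothC f)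
    (hR : ∃ _ : IsDedekindDomain (AdjoinRoot f), PropT p k (AdjoinRoot f)) {m : ℕ}
    {P : k[X]} {g : Fin (m + 1) → k[X][X]}
    (hPi : Irreducible P) (hg : ∀ i, (g i).Monic) (hf : f = C P + ∏ i, g i)
    (hi : ∀ i, Irreducible ((g i).map (AdjoinRoot.mk P)))
    (hne : ∀ i i', i ≠ i' → (g i).map (AdjoinRoot.mk P) ≠ (g i').map (AdjoinRoot.mk P))
    {j : ℕ} (hj : p ^ (s + 1) ∣ f.natDegree * j + 1) :
    Concl p (p ^ (s + 1)) m k k' F ((f.scaleRoots (P ^ j)).map (algebraMap k[X] K)) := by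
  have hirr2 := irrF' hT hmon hirr
  obtain ⟨hD, hprop⟩ := hR
  exact conclG hT hp rfl hζ hmon hcop hPi hg hf hi hne hj
    ⟨AdjoinRoot f, inferInstance, hD, inferInstance, _, _, pres_adjoin f, hprop⟩
    (sepK hT hmon hirr hder) hsm hirr2

end main

section cubic

variable {k : Type} [Field k] {a b c e : k} {r : Fin 3 → k}

/-- The prime `e - t ^ 2`. -/
noncomputable def PQ (e : k) : k[X] := C e - X ^ 2

theorem PQ_irr (he : ∀ v : k, e ≠ v ^ 2) : Irreducible (PQ e) := by
  have h1 : Irreducible (X ^ 2 - C e : k[X]) :=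
    X_pow_sub_C_irreducible_of_prime Nat.prime_two fun v hv => he v hv.symm
  have h2 : PQ e = C (-1) * (X ^ 2 - C e) := by
    unfold PQ
    rw [C_neg, C_1]
    ring
  rw [h2]
  exact (irreducible_isUnit_mul (isUnit_C.2 (IsUnit.mk0 _ (neg_ne_zero.2 one_ne_zero)))).2 h1

theorem sup_fac (h : cub a b c - C e = ∏ i, (X - C (r i))) :
    sup (cub a b c) 2 = C (PQ e) + ∏ i, (X - C (C (r i))) := by
  have h1 : cub a b c = C e + ∏ i, (X - C (r i)) := by
    rw [← h]
    ring
  unfold sup PQ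
  rw [h1, Polynomial.map_add, map_C, Polynomial.map_prod]
  simp only [Polynomial.map_sub, map_X, map_C, C_sub]
  ring

theorem lin_irr (he : ∀ v : k, e ≠ v ^ 2) (i : Fin 3) :
    Irreducible ((X - C (C (r i)) : k[X][X]).map (AdjoinRoot.mk (PQ e))) := by
  haveI : Fact (Irreducible (PQ e)) := ⟨PQ_irr he⟩
  rw [Polynomial.map_sub, map_X, map_C]
  exact irreducible_X_sub_C _

theorem lin_ne (he : ∀ v : k, e ≠ v ^ 2) (hr : Function.Injective r) {i i' : Fin 3} (h : i ≠ i') :
    (X - C (C (r i)) : k[X][X]).map (AdjoinRoot.mk (PQ e)) ≠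
      (X - C (C (r i')) : k[X][X]).map (AdjoinRoot.mk (PQ e)) := by
  haveI : Fact (Irreducible (PQ e)) := ⟨PQ_irr he⟩
  rw [Polynomial.map_sub, map_X, map_C, Polynomial.map_sub, map_X, map_C]
  intro h1
  have h2 := C_injective (sub_right_injective h1)
  exact h (hr (((AdjoinRoot.mk (PQ e)).comp C).injective h2))

end cubic

end Pool.Agent.X261.MF
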