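import Pool.Agent.X261.MS.Gen

/-!
A prime `P` of `k[t]` such that `f - P` is a product of polynomials irreducible modulo `P`.
-/

set_option autoImplicit false
set_option linter.all false

open Polynomial IsDedekindDomain WithZero
open scoped nonZeroDivisors Classical

namespace Pool.Agent.X261.MF

open Pool.Agent.Y160.SE (IsPw)
open Pool.Agent.Y160.FT (Pres)
open Pool.Agent.Y228.FT
open Pool.Agent.X261.TS (dvd_pres exists_exp exists_shift)
open Pool.Agent.X261.RO (ev ev_C)

section primes

variable {k R : Type} [Field k] [CommRing R] [IsDomain R] [Algebra k R] {t x : R} {f : k[X][X]}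
  {ι : Type} [Fintype ι] {g : ι → k[X][X]} {P : k[X]}

theorem ev_mul (t x : R) (a b : k[X][X]) : ev t x (a * b) = ev t x a * ev t x b := by
  unfold ev
  exact eval₂_mul _ _

theorem ev_sub (t x : R) (a b : k[X][X]) : ev t x (a - b) = ev t x a - ev t x b := by
  unfold ev
  exact eval₂_sub _

theorem ev_prod (t x : R) (g : ι → k[X][X]) : ev t x (∏ i, g i) = ∏ i, ev t x (g i) := by
  unfold ev
  exact eval₂_finsetProd _ _ _ _

/-- `P = - ∏ g_i` in the ring of the curve. -/
theorem ev_P (h : Pres t x f) (hf : f = C P + ∏ i, g i) : aeval t P = -∏ i, ev t x (g i) := by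
  have h1 : ev t x f = 0 := (h.ker f).2 dvd_rfl
  rw [← ev_prod, ← ev_C t x P]
  have h2 : ev t x f = ev t x (C P) + ev t x (∏ i, g i) := by
    rw [hf]
    unfold ev
    exact eval₂_add _ _
  rw [h1] at h2
  linear_combination -h2

theorem map_f (hf : f = C P + ∏ i, g i) :
    f.map (AdjoinRoot.mk P) = ∏ i, (g i).map (AdjoinRoot.mk P) := by
  rw [hf, Polynomial.map_add, map_C, AdjoinRoot.mk_self, C_0, zero_add, Polynomial.map_prod]

theorem dvd_G (h : Pres t x f) (hf : f = C P + ∏ i, g i) (i : ι) (p : k[X][X]) :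
    ev t x (g i) ∣ ev t x p ↔ (g i).map (AdjoinRoot.mk P) ∣ p.map (AdjoinRoot.mk P) := by
  constructor
  · rintro ⟨r, hr⟩
    obtain ⟨r', rfl⟩ := h.surj r
    have h1 : ev t x (p - g i * r') = 0 := by
      rw [ev_sub, ev_mul, hr]
      exact sub_self _
    obtain ⟨s, hs⟩ := (h.ker _).1 h1
    have h2 : (g i).map (AdjoinRoot.mk P) ∣ (p - g i * r').map (AdjoinRoot.mk P) := by
      rw [hs, Polynomial.map_mul, map_f hf]
      exact (Finset.dvd_prod_of_mem _ (Finset.mem_univ i)).mul_right _
    rw [Polynomial.map_sub, Polynomial.map_mul] at h2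
    exact (dvd_sub_left (dvd_mul_right _ _)).1 h2
  · rintro ⟨s, hs⟩
    obtain ⟨s', rfl⟩ := Polynomial.map_surjective (AdjoinRoot.mk P) AdjoinRoot.mk_surjective s
    have h1 : C P ∣ p - g i * s' := by
      rw [C_dvd_iff_dvd_coeff]
      intro n
      have h2 : ((p - g i * s').map (AdjoinRoot.mk P)).coeff n = 0 := by
        rw [Polynomial.map_sub, Polynomial.map_mul, hs, sub_self, coeff_zero]
      rw [coeff_map, AdjoinRoot.mk_eq_zero] at h2
      exact h2
    obtain ⟨r, hr⟩ := h1
    have h2 : p = g i * s' + C P * r := by linear_combination hr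
    have h3 : ev t x p = ev t x (g i) * ev t x s' + aeval t P * ev t x r := by
      rw [h2, ← ev_C t x P, ← ev_mul, ← ev_mul]
      unfold ev
      exact eval₂_add _ _
    rw [h3, ev_P h hf]
    refine dvd_add (dvd_mul_right _ _) (Dvd.dvd.mul_right ?_ _)
    rw [dvd_neg]
    exact Finset.dvd_prod_of_mem _ (Finset.mem_univ i)

theorem aeval_P_ne (h : Pres t x f) (hn : 0 < f.natDegree) (hP : P ≠ 0) : aeval t P ≠ 0 := by
  intro h0
  have h1 : ev t x (C P) = 0 := by rw [ev_C, h0]
  have h2 := (h.ker _).1 h1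
  have h3 := natDegree_le_of_dvd h2 (C_ne_zero.2 hP)
  rw [natDegree_C] at h3
  omega

theorem prime_G (h : Pres t x f) (hf : f = C P + ∏ i, g i) (hn : 0 < f.natDegree)
    (hP : Irreducible P) (i : ι) (hi : Irreducible ((g i).map (AdjoinRoot.mk P))) :
    Prime (ev t x (g i)) := by
  haveI : Fact (Irreducible P) := ⟨hP⟩
  refine ⟨?_, ?_, ?_⟩
  · intro h0
    have h1 : ev t x (g i) ∣ ev t x (C P) := by
      rw [dvd_G h hf, map_C, AdjoinRoot.mk_self, C_0]
      exact dvd_zero _
    rw [h0, zero_dvd_iff, ev_C] at h1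
    exact aeval_P_ne h hn hP.ne_zero h1
  · intro hu
    have h1 : ev t x (g i) ∣ ev t x (1 : k[X][X]) := by
      unfold ev
      rw [eval₂_one]
      exact hu.dvd
    rw [dvd_G h hf, Polynomial.map_one] at h1
    exact hi.not_isUnit (isUnit_of_dvd_one h1)
  · intro a b hab
    obtain ⟨a', ha'⟩ := h.surj a
    obtain ⟨b', hb'⟩ := h.surj b
    rw [← ha', ← hb', ← eval₂_mul] at hab
    rw [← ha', ← hb']
    have h1 := (dvd_G h hf i (a' * b')).1 hab
    rw [Polynomial.map_mul] at h1
    rcases hi.prime.dvd_or_dvd h1 with h2 | h2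
    · exact Or.inl ((dvd_G h hf i a').2 h2)
    · exact Or.inr ((dvd_G h hf i b').2 h2)

theorem ndvd_G (h : Pres t x f) (hf : f = C P + ∏ i, g i) (hP : Irreducible P)
    (hg : ∀ i, (g i).Monic) (hi : ∀ i, Irreducible ((g i).map (AdjoinRoot.mk P))) {i i' : ι}
    (hne : (g i).map (AdjoinRoot.mk P) ≠ (g i').map (AdjoinRoot.mk P)) :
    ¬ ev t x (g i) ∣ ev t x (g i') := by
  haveI : Fact (Irreducible P) := ⟨hP⟩
  rw [dvd_G h hf]
  intro h1
  exact hne (eq_of_monic_of_associated ((hg i).map _) ((hg i').map _)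
    ((hi i).associated_of_dvd (hi i') h1))

end primes

section norm

variable {K N : Type} [Field K] [Field N] [Algebra K N]

/-- The norm of `g(θ)`, if `g` divides `f - c` for the minimal polynomial `f` of `θ`. -/
theorem norm_aeval {f g : K[X]} (hf : f.Monic) (hirr : Irreducible f) {θ : N}
    (hθ : aeval θ f = 0) (htop : IntermediateField.adjoin K {θ} = ⊤) (hg : g.Monic) {c : K}
    (hd : g ∣ f - C c) : Algebra.norm K (aeval θ g) = ((-1) ^ f.natDegree * c) ^ g.natDegree := by
  have hint : IsIntegral K θ := ⟨f, hf, hθ⟩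
  have hmin : minpoly K θ = f := (minpoly.eq_of_irreducible_of_monic hirr hθ hf).symm
  let pb0 := IntermediateField.adjoin.powerBasis hint
  let e : IntermediateField.adjoin K {θ} ≃ₐ[K] N :=
    (IntermediateField.equivOfEq htop).trans IntermediateField.topEquiv
  let pb : PowerBasis K N := pb0.map e
  have hgen : pb.gen = θ := by
    show e pb0.gen = θ
    rw [IntermediateField.adjoin.powerBasis_gen]
    rfl
  set M := Algebra.leftMulMatrix pb.basis θ with hM
  have h1 : M.charpoly = f := by
    have := charpoly_leftMulMatrix pb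
    rw [hgen, hmin] at this
    exact this
  have hdim : pb.dim = f.natDegree := by
    rw [← h1, Matrix.charpoly_natDegree_eq_dim, Fintype.card_fin]
  let E := AlgebraicClosure K
  let φ : K →+* E := algebraMap K E
  have hφ : Function.Injective φ := φ.injective
  let M' : Matrix (Fin pb.dim) (Fin pb.dim) E := φ.mapMatrix M
  have h1' : M'.charpoly = f.map φ := by
    rw [← h1]
    exact Matrix.charpoly_map M φ
  -- the determinant of a polynomial in `M'`
  let D : E[X] →* E := (Matrix.detMonoidHom (n := Fin pb.dim) (R := E)).comp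
    ((aeval M' : E[X] →ₐ[E] Matrix (Fin pb.dim) (Fin pb.dim) E).toRingHom.toMonoidHom)
  have hD1 : ∀ a : E, D (X - C a) = (-1) ^ f.natDegree * (f.map φ).eval a := by
    intro a
    show Matrix.det (aeval M' (X - C a)) = _
    rw [← h1', Matrix.eval_charpoly, map_sub, aeval_X, aeval_C]
    have : M' - algebraMap E (Matrix (Fin pb.dim) (Fin pb.dim) E) a =
        -(Matrix.scalar (Fin pb.dim) a - M') := by
      rw [neg_sub]
      rfl
    rw [this, Matrix.det_neg, Fintype.card_fin, ← hdim]
  have hD2 : φ (Algebra.norm K (aeval θ g)) = D (g.map φ) := by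
    rw [Algebra.norm_eq_matrix_det pb.basis, ← aeval_algHom_apply, RingHom.map_det]
    show _ = Matrix.det (aeval M' (g.map φ))
    congr 1
    rw [← hM, aeval_def, aeval_def, eval₂_map, hom_eval₂]
    congr 1
    ext a i j
    simp [Matrix.algebraMap_matrix_apply]
    split_ifs <;> simp [φ]
  apply hφ
  have hs : (g.map φ).Splits := IsAlgClosed.splits _
  have hsp := hs.eq_prod_roots
  rw [(hg.map φ).leadingCoeff, C_1, one_mul] at hsp
  rw [hD2, hsp, map_multiset_prod, Multiset.map_map]
  have h2 : ∀ a ∈ (g.map φ).roots, (D ∘ fun a => X - C a) a = (-1) ^ f.natDegree * φ c := by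
    intro a ha
    have h3 : (g.map φ).eval a = 0 := (mem_roots'.1 ha).2
    obtain ⟨r, hr⟩ := hd
    have h4 : (f.map φ).eval a = φ c := by
      have h5 := congrArg (fun p => (p.map φ).eval a) hr
      simp only [Polynomial.map_sub, Polynomial.map_mul, map_C, eval_sub, eval_mul, eval_C, h3,
        zero_mul] at h5
      exact sub_eq_zero.1 h5
    show D (X - C a) = _
    rw [hD1, h4]
  rw [Multiset.map_congr rfl h2, Multiset.map_const', Multiset.prod_replicate]
  have h6 : Multiset.card (g.map φ).roots = g.natDegree := by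
    rw [← hs.natDegree_eq_card_roots, hg.natDegree_map]
  rw [h6, map_pow, map_mul, map_pow, map_neg, map_one]

end norm

end Pool.Agent.X261.MF
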