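import Pool.Agent.X261.MF.Prm

/-!
Functions whose divisor is divisible by `q` away from the primes above `P`.
-/

set_option autoImplicit false
set_option linter.all false

open Polynomial IsDedekindDomain WithZero
open scoped nonZeroDivisors Classical

namespace Pool.Agent.X261.MF

open Pool.Agent.Y160.SE (IsPw)
open Pool.Agent.Y160.FT (Pres)
open Pool.Agent.Y160.T7
open Pool.Agent.Y228.FT
open Pool.Agent.X261.RO (eq_of_dvd dvd_exp)
open Pool.Agent.X261.MS (adjustF)

section solve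

variable {k K R N : Type} [Field k] [CommRing R] [IsDedekindDomain R] [Field N] [Algebra R N]
  [IsFractionRing R N] [Algebra k[X] R] [Field K] [Algebra k[X] K] [IsFractionRing k[X] K]
  [Algebra K N] [Algebra k[X] N] [IsScalarTower k[X] K N] [IsScalarTower k[X] R N] {m : ℕ}

/-- The adjustment at the primes above `P`. -/
theorem adjustG {q : ℕ} (hq : 0 < q) {P : k[X]} {A : Fin m → R} {B : R} (hA : ∀ i, Prime (A i))
    (hB : Prime B) (hBA : ∀ i, ¬ B ∣ A i) (hAA : ∀ i j, i ≠ j → ¬ A i ∣ A j)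
    (hP : algebraMap k[X] R P = -((∏ i, A i) * B)) {z : N} (hz : z ≠ 0)
    (hv : ∀ v : HeightOneSpectrum R, algebraMap k[X] R P ∉ v.asIdeal →
      IsPw q (v.valuation N z)) :
    ∃ (a : Fin m → ℕ) (b : ℕ), ∀ v : HeightOneSpectrum R,
      IsPw q (v.valuation N (z * (∏ i, algebraMap R N (A i) ^ a i) * (algebraMap R N B) ^ b)) := by
  let A' : Option (Fin m) → R := fun o => o.elim B A
  obtain ⟨a, ha⟩ := adjustF (N := N) hq Finset.univ A' (fun o _ => by
      cases o with
      | none => exact hB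
      | some i => exact hA i) (fun o _ o' _ hne => by
      cases o with
      | none =>
        cases o' with
        | none => exact absurd rfl hne
        | some i => exact hBA i
      | some i =>
        cases o' with
        | none => exact fun h => hBA i (eq_of_dvd (hA i) hB h)
        | some j => exact hAA i j (fun e => hne (by rw [e]))) z hz (fun v hv1 => by
      refine hv v fun h3 => ?_
      rw [hP, neg_mem_iff] at h3
      rcases v.isPrime.mem_or_mem h3 with h4 | h4
      · obtain ⟨i, -, h5⟩ := (v.isPrime.prod_mem_iff).1 h4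
        exact ((v.intValuation_lt_one_iff_mem _).2 h5).ne (hv1 (some i) (Finset.mem_univ _))
      · exact ((v.intValuation_lt_one_iff_mem _).2 h4).ne (hv1 none (Finset.mem_univ _)))
  refine ⟨fun i => a (some i), a none, fun v => ?_⟩
  have h1 := ha v
  rw [Fintype.prod_option] at h1
  have e : z * (∏ i, algebraMap R N (A i) ^ a (some i)) * algebraMap R N B ^ a none =
      z * (algebraMap R N (A' none) ^ a none * ∏ i, algebraMap R N (A' (some i)) ^ a (some i)) := by
    show _ = z * (algebraMap R N B ^ a none * ∏ i, algebraMap R N (A i) ^ a (some i))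
    ring
  rw [e]
  exact h1

theorem solveG [FiniteDimensional K N] {q : ℕ} (hq : 1 < q) {n : ℕ}
    (hn : Module.finrank K N = n) {P : k[X]} (hPi : Irreducible P) {A : Fin m → R}
    {B : R} (hA : ∀ i, Prime (A i)) (hB : Prime B) (hBA : ∀ i, ¬ B ∣ A i)
    (hAA : ∀ i j, i ≠ j → ¬ A i ∣ A j) (hP : algebraMap k[X] R P = -((∏ i, A i) * B))
    {d : Fin m → ℕ} {dB : ℕ} (hd : (∑ i, d i) + dB = n)
    (hNA : ∀ i, Algebra.norm K (algebraMap R N (A i)) = ((-1) ^ n * algebraMap k[X] K P) ^ d i)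
    (hNB : Algebra.norm K (algebraMap R N B) = ((-1) ^ n * algebraMap k[X] K P) ^ dB) {j : ℕ}
    (hnj : q ∣ n * j + 1)
    (hR : ∀ z : N, z ≠ 0 → (∀ v : HeightOneSpectrum R, IsPw q (v.valuation N z)) →
      ∃ (u : k) (g0 : N), u ≠ 0 ∧ g0 ≠ 0 ∧ z = algebraMap k[X] N (C u) * g0 ^ q)
    {z : N} (hz : z ≠ 0) (hv : ∀ v : HeightOneSpectrum R, algebraMap k[X] R (P ^ j) ∉ v.asIdeal →
      IsPw q (v.valuation N z)) (hnm : ∃ y : K, Algebra.norm K z = y ^ q) :
    ∃ (u : k) (g : N) (e : Fin m → ℕ), u ≠ 0 ∧ g ≠ 0 ∧ z = algebraMap k[X] N (C u) * g ^ q *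
      ∏ i, (algebraMap k[X] N (P ^ j) ^ d i * algebraMap R N (A i)) ^ e i := by
  have hinjK := IsFractionRing.injective k[X] K
  have hinjN := IsFractionRing.injective R N
  have hAN : ∀ i, algebraMap R N (A i) ≠ 0 := fun i h0 =>
    (hA i).ne_zero (hinjN (by rw [h0, map_zero]))
  have hBN : algebraMap R N B ≠ 0 := fun h0 => hB.ne_zero (hinjN (by rw [h0, map_zero]))
  have hPK : algebraMap k[X] K P ≠ 0 := fun h0 => hPi.ne_zero (hinjK (by rw [h0, map_zero]))
  obtain ⟨a, b, hab⟩ := adjustG (N := N) (zero_lt_one.trans hq) hA hB hBA hAA hP hz fun v hv1 => by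
    refine hv v fun h => hv1 ?_
    rw [map_pow] at h
    exact v.isPrime.mem_of_pow_mem j h
  set Aa : N := ∏ i, algebraMap R N (A i) ^ a i with hAa
  have hAa0 : Aa ≠ 0 := Finset.prod_ne_zero_iff.2 fun i _ => pow_ne_zero _ (hAN i)
  obtain ⟨u, w, hu, hw, e1⟩ := hR _ (mul_ne_zero (mul_ne_zero hz hAa0) (pow_ne_zero b hBN)) hab
  obtain ⟨y, hy⟩ := hnm
  have hy0 : y ≠ 0 := by
    rintro rfl
    rw [zero_pow (by omega)] at hy
    exact hz (Algebra.norm_eq_zero_iff.1 hy)
  have hPN : -((∏ i, algebraMap R N (A i)) * algebraMap R N B) =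
      algebraMap K N (algebraMap k[X] K P) := by
    rw [← map_prod, ← map_mul, ← map_neg, ← hP, ← IsScalarTower.algebraMap_apply,
      ← IsScalarTower.algebraMap_apply]
  -- the norms
  have hNAa : Algebra.norm K Aa = ((-1) ^ n * algebraMap k[X] K P) ^ (∑ i, d i * a i) := by
    rw [hAa, map_prod, ← Finset.prod_pow_eq_pow_sum]
    exact Finset.prod_congr rfl fun i _ => by rw [map_pow, hNA i, ← pow_mul]
  have huN : algebraMap k[X] N (C u) = algebraMap K N (algebraMap k[X] K (C u)) :=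
    IsScalarTower.algebraMap_apply k[X] K N _
  have e2 := congrArg (Algebra.norm K) e1
  rw [map_mul, map_mul, hNAa, map_pow, hNB, hy, map_mul, huN, Algebra.norm_algebraMap, hn,
    map_pow] at e2
  set T : ℕ := (∑ i, d i * a i) + dB * b with hT
  have hs1 : ((-1 : K) ^ n) ^ T * ((-1 : K) ^ n) ^ T = 1 := by
    rw [← pow_mul, ← mul_pow, neg_one_mul, neg_neg, one_pow]
  have e3 : algebraMap k[X] K P ^ T * y ^ q =
      algebraMap k[X] K (C (u ^ n * ((-1) ^ n) ^ T)) * Algebra.norm K w ^ q := by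
    have h1 : ((-1) ^ n * algebraMap k[X] K P) ^ T * y ^ q =
        algebraMap k[X] K (C u) ^ n * Algebra.norm K w ^ q := by
      rw [hT, pow_add, pow_mul _ dB b, ← e2]
      ring
    rw [mul_pow] at h1
    rw [C_mul, C_pow, map_mul, map_pow, C_pow, C_pow, C_neg, C_1, map_pow, map_pow, map_neg, map_one]
    calc algebraMap k[X] K P ^ T * y ^ q
        = (((-1 : K) ^ n) ^ T * ((-1 : K) ^ n) ^ T) * (algebraMap k[X] K P ^ T * y ^ q) := by
          rw [hs1, one_mul]
      _ = ((-1 : K) ^ n) ^ T * (((-1 : K) ^ n) ^ T * algebraMap k[X] K P ^ T * y ^ q) := by ring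
      _ = _ := by
        rw [h1]
        ring
  obtain ⟨α, β, hβ, hαβ⟩ := Pool.Agent.X261.TW.exists_frac (k := k) K (Algebra.norm K w / y)
  have hNw : Algebra.norm K w ≠ 0 := fun h0 => hw (Algebra.norm_eq_zero_iff.1 h0)
  have hβK : algebraMap k[X] K β ≠ 0 := fun h0 => hβ (hinjK (by rw [h0, map_zero]))
  have hα : α ≠ 0 := by
    rintro rfl
    rw [map_zero] at hαβ
    exact mul_ne_zero (div_ne_zero hNw hy0) hβK hαβ
  have e4 : P ^ T * β ^ q = C (u ^ n * ((-1) ^ n) ^ T) * α ^ q := by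
    apply hinjK
    rw [map_mul (algebraMap k[X] K), map_mul (algebraMap k[X] K), map_pow (algebraMap k[X] K) P,
      map_pow (algebraMap k[X] K) β, map_pow (algebraMap k[X] K) α, ← hαβ, mul_pow, div_pow]
    have hyq : y ^ q ≠ 0 := pow_ne_zero q hy0
    field_simp
    linear_combination e3
  obtain ⟨s, hs⟩ := dvd_exp hPi (mul_ne_zero (pow_ne_zero n hu)
    (pow_ne_zero T (pow_ne_zero n (neg_ne_zero.2 one_ne_zero)))) hα hβ e4
  -- the exponents
  set e : Fin m → ℕ := fun i => b + (q - 1) * a i with he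
  set E : ℕ := ∑ i, d i * e i with hE
  set F : ℕ := ∑ i, e i with hF
  obtain ⟨q', hq'⟩ : ∃ q', q = q' + 1 := ⟨q - 1, by omega⟩
  have hEs : E + q * s = n * b + q * ∑ i, d i * a i := by
    have h1 : E = (∑ i, d i) * b + (q - 1) * ∑ i, d i * a i := by
      rw [hE, he, Finset.sum_mul, Finset.mul_sum, ← Finset.sum_add_distrib]
      refine Finset.sum_congr rfl fun i _ => ?_
      ring
    have h2 : (∑ i, d i) * b + dB * b = n * b := by
      rw [← add_mul, hd]
    rw [← hs, hT, h1]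
    have h3 : (q - 1) * (∑ i, d i * a i) + ∑ i, d i * a i = q * ∑ i, d i * a i := by
      rw [hq', Nat.add_sub_cancel]
      ring
    linarith
  obtain ⟨c0, hc0⟩ := hnj
  -- `b + j E` is divisible by `q`
  obtain ⟨r, hr⟩ : q ∣ b + j * E := by
    have h1 : q ∣ (b + j * E) + q * (j * s) := by
      have h2 : (b + j * E) + q * (j * s) = q * (c0 * b + j * ∑ i, d i * a i) := by
        calc (b + j * E) + q * (j * s) = b + j * (E + q * s) := by ring
          _ = b + j * (n * b + q * ∑ i, d i * a i) := by rw [hEs]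
          _ = (n * j + 1) * b + q * (j * ∑ i, d i * a i) := by ring
          _ = _ := by
            rw [hc0]
            ring
      rw [h2]
      exact dvd_mul_right _ _
    exact (Nat.dvd_add_left (dvd_mul_right q (j * s))).1 h1
  have hPjN : algebraMap k[X] N (P ^ j) =
      (-1) ^ j * ((∏ i, algebraMap R N (A i)) * algebraMap R N B) ^ j := by
    rw [← mul_pow, neg_one_mul, hPN, map_pow, IsScalarTower.algebraMap_apply k[X] K N]
  set Pi : N := ∏ i, algebraMap R N (A i) with hPi'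
  have hPi0 : Pi ≠ 0 := Finset.prod_ne_zero_iff.2 fun i _ => hAN i
  -- the product of the points
  have hprod : ∏ i, (algebraMap k[X] N (P ^ j) ^ d i * algebraMap R N (A i)) ^ e i =
      ((-1) ^ j) ^ E * ((Pi * algebraMap R N B) ^ j) ^ E * (Pi ^ b * (Aa ^ (q - 1))) := by
    have h1 : ∀ i, (algebraMap k[X] N (P ^ j) ^ d i * algebraMap R N (A i)) ^ e i =
        ((-1) ^ j) ^ (d i * e i) * ((Pi * algebraMap R N B) ^ j) ^ (d i * e i) *
          (algebraMap R N (A i) ^ b * (algebraMap R N (A i) ^ a i) ^ (q - 1)) := by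
      intro i
      have h2 : algebraMap R N (A i) ^ (b + (q - 1) * a i) =
          algebraMap R N (A i) ^ b * (algebraMap R N (A i) ^ a i) ^ (q - 1) := by
        rw [pow_add, ← pow_mul, mul_comm (a i)]
      rw [hPjN, mul_pow, ← pow_mul _ (d i) (e i), mul_pow ((-1 : N) ^ j), ← h2]
    rw [Finset.prod_congr rfl fun i _ => h1 i, Finset.prod_mul_distrib, Finset.prod_mul_distrib,
      Finset.prod_mul_distrib, Finset.prod_pow_eq_pow_sum, Finset.prod_pow_eq_pow_sum,
      Finset.prod_pow, Finset.prod_pow]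
  refine ⟨u * ((-1) ^ j) ^ E, w / (Aa * Pi ^ r * algebraMap R N B ^ r), e,
    mul_ne_zero hu (pow_ne_zero _ (pow_ne_zero _ (neg_ne_zero.2 one_ne_zero))), div_ne_zero hw
    (mul_ne_zero (mul_ne_zero hAa0 (pow_ne_zero _ hPi0)) (pow_ne_zero _ hBN)), ?_⟩
  have h5 : (C (u * ((-1) ^ j) ^ E) : k[X]) = C u * ((-1) ^ j) ^ E := by
    rw [C_mul, C_pow, C_pow, C_neg, C_1]
  have h6 : (((-1 : N) ^ j) ^ E) * ((-1) ^ j) ^ E = 1 := by
    rw [← mul_pow, ← mul_pow, neg_one_mul, neg_neg, one_pow, one_pow]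
  have hden : (Aa * Pi ^ r * algebraMap R N B ^ r) ^ q ≠ 0 :=
    pow_ne_zero _ (mul_ne_zero (mul_ne_zero hAa0 (pow_ne_zero _ hPi0)) (pow_ne_zero _ hBN))
  rw [hprod, h5, map_mul, map_pow, map_pow, map_neg, map_one, div_pow, mul_div_assoc',
    div_mul_eq_mul_div, eq_div_iff hden]
  have h7 : (Aa * Pi ^ r * algebraMap R N B ^ r) ^ q =
      Aa * Aa ^ (q - 1) * (Pi * algebraMap R N B) ^ (j * E) * (Pi ^ b * algebraMap R N B ^ b) := by
    have h8 : Aa ^ q = Aa * Aa ^ (q - 1) := by
      rw [← pow_succ']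
      congr 1
      omega
    rw [mul_pow, mul_pow, h8, ← pow_mul, ← pow_mul, mul_comm r q, ← hr, pow_add, pow_add, mul_pow]
    ring
  rw [h7]
  calc z * (Aa * Aa ^ (q - 1) * (Pi * algebraMap R N B) ^ (j * E) *
        (Pi ^ b * algebraMap R N B ^ b))
      = (z * Aa * algebraMap R N B ^ b) * (Aa ^ (q - 1) * (Pi * algebraMap R N B) ^ (j * E) *
        Pi ^ b) := by ring
    _ = (algebraMap k[X] N (C u) * w ^ q) * (Aa ^ (q - 1) *
        (Pi * algebraMap R N B) ^ (j * E) * Pi ^ b) * ((((-1 : N) ^ j) ^ E) * ((-1) ^ j) ^ E) := by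
        rw [e1, h6, mul_one]
    _ = _ := by
        rw [← pow_mul (Pi * algebraMap R N B)]
        ring

/-- The orders of the functions of the points. -/
theorem orderG {q : ℕ} {n : ℕ} (hcop : n.Coprime q) {P : k[X]} {A : Fin m → R} {B : R}
    (hA : ∀ i, Prime (A i)) (hB : Prime B) (hBA : ∀ i, ¬ B ∣ A i)
    (hAA : ∀ i j, i ≠ j → ¬ A i ∣ A j) (hP : algebraMap k[X] R P = -((∏ i, A i) * B))
    {d : Fin m → ℕ} {j : ℕ} {e : Fin m → ℕ} {w : N} (hw : w ≠ 0)
    (h : (∏ i, (algebraMap k[X] N (P ^ j) ^ d i * algebraMap R N (A i)) ^ e i) ^ n = w ^ q ∨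
      (∏ i, (algebraMap k[X] N (P ^ j) ^ d i * algebraMap R N (A i)) ^ e i) ^ n = -w ^ q)
    (i : Fin m) : q ∣ e i := by
  set E : ℕ := ∑ i, d i * e i with hE
  -- the valuations of the product
  have hval : ∀ v : HeightOneSpectrum R, v.valuation N
      (∏ i, (algebraMap k[X] N (P ^ j) ^ d i * algebraMap R N (A i)) ^ e i) =
      (v.intValuation (∏ i, A i) * v.intValuation B) ^ (j * E) *
        ∏ i, v.intValuation (A i) ^ e i := by
    intro v
    rw [map_prod]
    have h1 : ∀ i, v.valuation N ((algebraMap k[X] N (P ^ j) ^ d i * algebraMap R N (A i)) ^ e i) =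
        ((v.intValuation (∏ i, A i) * v.intValuation B) ^ j) ^ (d i * e i) *
          v.intValuation (A i) ^ e i := by
      intro i
      rw [map_pow, map_mul, map_pow, IsScalarTower.algebraMap_apply k[X] R N,
        HeightOneSpectrum.valuation_of_algebraMap, HeightOneSpectrum.valuation_of_algebraMap,
        map_pow, hP, map_pow, Valuation.map_neg, map_mul, mul_pow, ← pow_mul _ (d i) (e i)]
    rw [Finset.prod_congr rfl fun i _ => h1 i, Finset.prod_mul_distrib,
      Finset.prod_pow_eq_pow_sum, ← pow_mul]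
  have key : ∀ (v : HeightOneSpectrum R) (d' : ℕ), v.valuation N
      (∏ i, (algebraMap k[X] N (P ^ j) ^ d i * algebraMap R N (A i)) ^ e i) = exp (-(d' : ℤ)) →
      q ∣ n * d' := by
    intro v d' hd'
    have h2 : exp (-(d' : ℤ)) ^ n = v.valuation N w ^ q := by
      rcases h with h | h
      · rw [← hd', ← map_pow (v.valuation N), h, map_pow (v.valuation N) w]
      · rw [← hd', ← map_pow (v.valuation N), h, Valuation.map_neg, map_pow (v.valuation N) w]
    obtain ⟨γ, hγ⟩ := Pool.Agent.X261.TS.exists_exp (γ := v.valuation N w)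
      ((Valuation.ne_zero_iff _).2 hw)
    rw [hγ, ← exp_nsmul, ← exp_nsmul] at h2
    have h3 := exp_injective h2
    rw [nsmul_eq_mul, nsmul_eq_mul] at h3
    have h4 : (q : ℤ) ∣ ((n * d' : ℕ) : ℤ) := by
      refine ⟨-γ, ?_⟩
      push_cast
      linear_combination -h3
    exact_mod_cast h4
  have hexp : ∀ d : ℕ, (exp (-1 : ℤ) : WithZero (Multiplicative ℤ)) ^ d = exp (-(d : ℤ)) := by
    intro d
    rw [← exp_nsmul]
    congr 1
    rw [nsmul_eq_mul]
    ring
  -- at `B`
  have hBE : q ∣ n * (j * E) := by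
    refine key (vpr hB) (j * E) ?_
    have h1 : ∀ i, (vpr hB).intValuation (A i) = 1 := fun i => (vpr_eq_one hB (A i)).2 (hBA i)
    rw [hval, map_prod, Finset.prod_eq_one fun i _ => h1 i, one_mul, vpr_self,
      Finset.prod_eq_one fun i _ => by rw [h1 i, one_pow], mul_one, hexp]
  have hE0 : q ∣ j * E := (hcop.symm).dvd_of_dvd_mul_left hBE
  -- at `A i`
  have hAE : q ∣ n * (j * E + e i) := by
    refine key (vpr (hA i)) (j * E + e i) ?_
    have h1 : (vpr (hA i)).intValuation B = 1 :=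
      (vpr_eq_one (hA i) B).2 fun h => hBA i (eq_of_dvd (hA i) hB h)
    have h2 : ∀ i' : Fin m, i' ≠ i → (vpr (hA i)).intValuation (A i') = 1 := fun i' hi' =>
      (vpr_eq_one (hA i) (A i')).2 (hAA i i' (Ne.symm hi'))
    rw [hval, map_prod, Finset.prod_eq_single_of_mem i (Finset.mem_univ i) fun i' _ hi' => h2 i' hi',
      h1, mul_one, vpr_self, Finset.prod_eq_single_of_mem i (Finset.mem_univ i) fun i' _ hi' => by
        rw [h2 i' hi', one_pow], vpr_self, ← pow_add, hexp]
  have h3 : q ∣ j * E + e i := (hcop.symm).dvd_of_dvd_mul_left hAE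
  exact (Nat.dvd_add_right hE0).1 h3

end solve

end Pool.Agent.X261.MF
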